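import Pool.Agent.U620.TG.E

/-!
# Labelings of a poset that are not sorted after `n - 3` promotions

Let `P` be a poset with `n ≥ 3` elements, and let `Pairs2 P` be the set of the pairs `(y, x)` such that some
`z ≤ x` is above `y` and has at most two elements strictly below it. We prove that at most
`3 (n - 2)! |Pairs2 P|` labelings are not sorted after `n - 3` promotions. So the conjectured bound
`3 (n - 1)!` holds if there are at most `n - 1` such pairs.

The proof. If `y < z` are out of order after `n - 3` promotions, then `y` has never moved, the elements passing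
through the position of `z` only go down, and all elements below `z` are among the three elements which have
not left the first `n` positions.
-/

set_option autoImplicit false

namespace Pool.Agent.Results.MP_5db8eb_co.NotSortedBound

open Pool.Agent.W5h8.Tang Pool.Agent.U620.TG

/-- The labelings that are not sorted after `n - 3` promotions (`n ≥ 3` elements). -/
def NotSorted (P : Type) [PartialOrder P] [Fintype P] : Set (P → ℕ) :=
  {L | IsLabeling L ∧ ¬ IsLinExt (promote^[Fintype.card P - 3] L)}

/-- At most `3 (n - 2)!` times the number of pairs `(y, x)` such that some `z ≤ x` is above `y` and above at most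
two elements; so at most `3 (n - 1)!` if there are at most `n - 1` such pairs. -/
theorem result (P : Type) [PartialOrder P] [Fintype P] (h3 : 3 ≤ Fintype.card P) :
    (NotSorted P).ncard ≤ 3 * (Fintype.card P - 2).factorial *
      {p : P × P | ∃ z, p.1 < z ∧ z ≤ p.2 ∧ {u | u < z}.ncard ≤ 2}.ncard ∧
    ({p : P × P | ∃ z, p.1 < z ∧ z ≤ p.2 ∧ {u | u < z}.ncard ≤ 2}.ncard ≤ Fintype.card P - 1 →
      (NotSorted P).ncard ≤ 3 * (Fintype.card P - 1).factorial) := by
  obtain ⟨N, hN⟩ := Nat.exists_eq_add_of_le' h3
  have e1 : Fintype.card P - 2 = N + 1 := by omega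
  have e2 : Fintype.card P - 1 = N + 2 := by omega
  have e3 : Fintype.card P - 3 = N := by omega
  have h1 := card_unsorted2 (P := P) hN
  have h4 : NotSorted P ⊆ {L : P → ℕ | IsState 0 L ∧ ¬ Sorted 0 (run 0 L N)} := by
    rintro L ⟨hL, hns⟩
    have hL' := (isLabeling_iff L).1 hL
    refine ⟨hL', fun hs => hns ?_⟩
    rw [e3]
    exact (isLinExt_iff hL' N).2 hs
  have h5 : (NotSorted P).ncard ≤ 3 * (N + 1).factorial * (Pairs2 P).ncard :=
    (Set.ncard_le_ncard h4 ((finite_states (P := P) 0).subset fun _ hL => hL.1)).trans h1
  rw [e1, e2]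
  refine ⟨h5, fun h6 => ?_⟩
  have h7 : (Pairs2 P).ncard ≤ N + 2 := h6
  refine h5.trans ((Nat.mul_le_mul_left _ h7).trans_eq ?_)
  rw [Nat.factorial_succ (N + 1)]
  ring

end Pool.Agent.Results.MP_5db8eb_co.NotSortedBound
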